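import Pool.Agent.Lib.Pb27023.Upper

set_option autoImplicit false

open Filter

namespace Pool.Agent.Results.MP_b27023_nt.UpperBound

/-- For every `ε > 0` and all large `N`, every Sidon subset of `{1^2, 2^2, ..., N^2}` has at most
`N ^ (1 - ((log 2) / 2 - ε) / log log N)` elements. -/
theorem result : ∀ ε > (0 : ℝ), ∀ᶠ N : ℕ in atTop,
    (Finset.maxSidonSubsetCard (Finset.image (fun n : ℕ => n ^ 2) (Finset.Icc 1 N)) : ℝ) ≤
      (N : ℝ) ^ (1 - (Real.log 2 / 2 - ε) / Real.log (Real.log N)) := by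
  intro ε hε
  filter_upwards [Pool.Agent.Lib.Pb27023.upper ε hε] with N hN
  unfold Finset.maxSidonSubsetCard
  have hne : ((Finset.image (fun n : ℕ => n ^ 2) (Finset.Icc 1 N)).powerset.filter
      fun B : Finset ℕ => IsSidon (B : Set ℕ)).Nonempty := by
    refine ⟨∅, ?_⟩
    rw [Finset.mem_filter]
    exact ⟨Finset.empty_mem_powerset _, by simp [IsSidon]⟩
  obtain ⟨A, hA, h⟩ := Finset.exists_mem_eq_sup _ hne Finset.card
  rw [h]
  rw [Finset.mem_filter, Finset.mem_powerset] at hA
  exact hN A hA.2 hA.1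

end Pool.Agent.Results.MP_b27023_nt.UpperBound
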